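import Mathlib

/-!
# The local-global property of strong Maltsev conditions: definitions, and hidden presentations
-/

set_option autoImplicit false
set_option linter.dupNamespace false

namespace Pool.Agent.KS6_41.LG

/-- An algebra: a nonempty set with finitary basic operations. -/
structure Alg where
  A : Type
  ne : Nonempty A
  ι : Type
  ar : ι → ℕ
  op : ∀ i, (Fin (ar i) → A) → A

/-- The `k`-ary term operations. -/
inductive Clo (X : Alg) (k : ℕ) : ((Fin k → X.A) → X.A) → Prop
  | proj (i : Fin k) : Clo X k fun x => x i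
  | app (i : X.ι) (g : Fin (X.ar i) → (Fin k → X.A) → X.A) :
      (∀ j, Clo X k (g j)) → Clo X k fun x => X.op i fun j => g j x

/-- Terms in the variables `0, …, n - 1` over operation symbols `f : F` of arity `ar f`. -/
inductive Tm {F : Type} (ar : F → ℕ) (n : ℕ) : Type
  | var : Fin n → Tm ar n
  | app (f : F) : (Fin (ar f) → Tm ar n) → Tm ar n

/-- Value of a term. -/
def Tm.eval {F : Type} {n : ℕ} {ar : F → ℕ} {A : Type} (I : ∀ f, (Fin (ar f) → A) → A)
    (x : Fin n → A) : Tm ar n → A
  | .var i => x i
  | .app f t => I f fun j => (t j).eval I x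

/-- A strong Maltsev condition: finitely many operation symbols, finitely many identities in the
variables `0, …, n - 1`. -/
structure Cond where
  F : Type
  fin : Finite F
  ar : F → ℕ
  n : ℕ
  eqs : Set (Tm ar n × Tm ar n)
  finEqs : eqs.Finite

/-- The algebra `X` satisfies the condition `C` on the set `D` of tuples. -/
def SatOn (X : Alg) (C : Cond) (D : Set (Fin C.n → X.A)) : Prop :=
  ∃ I : ∀ f, (Fin (C.ar f) → X.A) → X.A, (∀ f, Clo X _ (I f)) ∧
    ∀ e ∈ C.eqs, ∀ x ∈ D, e.1.eval I x = e.2.eval I x

/-- The algebra `X` satisfies the condition `C`. -/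
def Sat (X : Alg) (C : Cond) : Prop := SatOn X C Set.univ

/-- Equivalence of strong Maltsev conditions. -/
def Equivalent (S T : Cond) : Prop := ∀ X : Alg, Sat X S ↔ Sat X T

/-- The `k`-local-global property within a class `P` of algebras: every algebra `X` of the class
with `|X| ^ n ≥ k` which satisfies `C` on each `k`-element set of tuples satisfies `C` on each
finite set of tuples. -/
def LGk (P : Alg → Prop) (k : ℕ) (C : Cond) : Prop :=
  ∀ X : Alg, P X → (∃ D : Finset (Fin C.n → X.A), D.card = k) →
    (∀ D : Finset (Fin C.n → X.A), D.card = k → SatOn X C D) →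
    ∀ D : Finset (Fin C.n → X.A), SatOn X C D

/-- The local-global property within a class of algebras. -/
def LGIn (P : Alg → Prop) (C : Cond) : Prop := ∃ k, 1 ≤ k ∧ LGk P k C

/-- The local-global property. -/
def LG (C : Cond) : Prop := LGIn (fun _ => True) C

/-- All symbols of the term lie in `J`. -/
def Tm.Low {F : Type} {n : ℕ} {ar : F → ℕ} (J : Set F) : Tm ar n → Prop
  | .var _ => True
  | .app f t => f ∈ J ∧ ∀ j, (t j).Low J

/-- All symbols of the term which occur below another symbol lie in `J`. -/
def Tm.Top {F : Type} {n : ℕ} {ar : F → ℕ} (J : Set F) : Tm ar n → Prop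
  | .var _ => True
  | .app _ t => ∀ j, (t j).Low J

/-- The condition makes the symbol `f` idempotent. -/
def Cond.IdemSymbol (C : Cond) (f : C.F) : Prop :=
  ∀ (X : Alg) (I : ∀ f, (Fin (C.ar f) → X.A) → X.A), (∀ f, Clo X _ (I f)) →
    (∀ e ∈ C.eqs, ∀ x, e.1.eval I x = e.2.eval I x) → ∀ a, I f (fun _ => a) = a

/-- Every symbol which occurs below another symbol is idempotent. This holds for linear conditions,
where no symbol occurs below another one, and for idempotent conditions. -/
def Cond.Tame (C : Cond) : Prop :=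
  ∀ e ∈ C.eqs, e.1.Top {f | C.IdemSymbol f} ∧ e.2.Top {f | C.IdemSymbol f}

/-! ### The hidden presentation -/

variable (S : Cond)

/-- The arities of the hidden presentation: a 4-ary `d = inr true` and a unary `c = inr false`. -/
def har : S.F ⊕ Bool → ℕ
  | .inl f => S.ar f
  | .inr true => 4
  | .inr false => 1

/-- Terms of `S` as terms of the hidden presentation. -/
def lift {S : Cond} : Tm S.ar S.n → Tm (har S) (S.n + 2)
  | .var i => .var (Fin.castAdd 2 i)
  | .app f t => .app (.inl f) fun j => lift (t j)

/-- `d(a, b, s, t)` -/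
def dd {S : Cond} (a b s t : Tm (har S) (S.n + 2)) : Tm (har S) (S.n + 2) :=
  .app (.inr true) ![a, b, s, t]

/-- `c(a)` -/
def cc {S : Cond} (a : Tm (har S) (S.n + 2)) : Tm (har S) (S.n + 2) :=
  .app (.inr false) ![a]

/-- the first new variable -/
def vx : Fin (S.n + 2) := Fin.natAdd S.n 0
/-- the second new variable -/
def vy : Fin (S.n + 2) := Fin.natAdd S.n 1

/-- The hidden presentation: `d(x, x, s, t) ≈ s` and `d(x, c(y), s, t) ≈ t` for each identity
`s ≈ t` of `S`. -/
def Hidden : Cond where
  F := S.F ⊕ Bool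
  fin := by have := S.fin; infer_instance
  ar := har S
  n := S.n + 2
  eqs := (fun e => (dd (.var (vx S)) (.var (vx S)) (lift e.1) (lift e.2), lift e.1)) '' S.eqs ∪
    (fun e => (dd (.var (vx S)) (cc (.var (vy S))) (lift e.1) (lift e.2), lift e.2)) '' S.eqs
  finEqs := (S.finEqs.image _).union (S.finEqs.image _)

theorem lift_eval {S : Cond} {A : Type} (I : ∀ f, (Fin (har S f) → A) → A)
    (z : Fin (S.n + 2) → A) (t : Tm S.ar S.n) :
    (lift t).eval I z = t.eval (fun f => I (.inl f)) (fun i => z (Fin.castAdd 2 i)) := by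
  induction t with
  | var i => rfl
  | app f t ih => simp only [lift, Tm.eval, ih]

theorem dd_eval {S : Cond} {A : Type} (I : ∀ f, (Fin (har S f) → A) → A)
    (z : Fin (S.n + 2) → A) (a b s t : Tm (har S) (S.n + 2)) :
    (dd a b s t).eval I z = I (.inr true) ![a.eval I z, b.eval I z, s.eval I z, t.eval I z] := by
  change I (.inr true) _ = _
  congr 1
  funext j
  change Fin 4 at j
  fin_cases j <;> rfl

theorem cc_eval {S : Cond} {A : Type} (I : ∀ f, (Fin (har S f) → A) → A)
    (z : Fin (S.n + 2) → A) (a : Tm (har S) (S.n + 2)) :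
    (cc a).eval I z = I (.inr false) ![a.eval I z] := by
  change I (.inr false) _ = _
  congr 1
  funext j
  change Fin 1 at j
  fin_cases j; rfl

/-- The identities of the hidden presentation. -/
theorem hidden_iff {S : Cond} {A : Type} (I : ∀ f, (Fin (har S f) → A) → A)
    (D : Set (Fin (S.n + 2) → A)) :
    (∀ e ∈ (Hidden S).eqs, ∀ z ∈ D, e.1.eval I z = e.2.eval I z) ↔
    ∀ e ∈ S.eqs, ∀ z ∈ D,
      I (.inr true) ![z (vx S), z (vx S),
        e.1.eval (fun f => I (.inl f)) (fun i => z (Fin.castAdd 2 i)),
        e.2.eval (fun f => I (.inl f)) (fun i => z (Fin.castAdd 2 i))] =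
        e.1.eval (fun f => I (.inl f)) (fun i => z (Fin.castAdd 2 i)) ∧
      I (.inr true) ![z (vx S), I (.inr false) ![z (vy S)],
        e.1.eval (fun f => I (.inl f)) (fun i => z (Fin.castAdd 2 i)),
        e.2.eval (fun f => I (.inl f)) (fun i => z (Fin.castAdd 2 i))] =
        e.2.eval (fun f => I (.inl f)) (fun i => z (Fin.castAdd 2 i)) := by
  constructor
  · intro h e he z hz
    have h1 := h _ (Or.inl ⟨e, he, rfl⟩) z hz
    have h2 := h _ (Or.inr ⟨e, he, rfl⟩) z hz
    simp only [dd_eval, cc_eval, lift_eval, Tm.eval] at h1 h2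
    exact ⟨h1, h2⟩
  · rintro h e (⟨e, he, rfl⟩ | ⟨e, he, rfl⟩) z hz
    · simpa only [dd_eval, cc_eval, lift_eval, Tm.eval] using (h e he z hz).1
    · simpa only [dd_eval, cc_eval, lift_eval, Tm.eval] using (h e he z hz).2

theorem equivalent_hidden : Equivalent S (Hidden S) := by
  intro X
  constructor
  · rintro ⟨I, hI, h⟩
    refine ⟨fun f => match f with
      | .inl f => I f
      | .inr true => fun v => v (2 : Fin 4)
      | .inr false => fun v => v (0 : Fin 1), ?_, ?_⟩
    · rintro (f | f | f)
      · exact hI f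
      · exact Clo.proj (X := X) (k := 1) 0
      · exact Clo.proj (X := X) (k := 4) 2
    · refine (hidden_iff (S := S) _ _).2 fun e he z _ => ⟨rfl, ?_⟩
      exact h e he _ trivial
  · rintro ⟨I, hI, h⟩
    refine ⟨fun f => I (.inl f), fun f => hI (.inl f), fun e he w _ => ?_⟩
    obtain ⟨a⟩ := X.ne
    have h' := (hidden_iff (S := S) I _).1 h e he
      (Fin.append w ![I (.inr false) ![a], a]) trivial
    have hx : (Fin.append w ![I (.inr false) ![a], a] : Fin (S.n + 2) → X.A) (vx S) =
        I (.inr false) ![a] := by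
      simp [vx]
    have hy : (Fin.append w ![I (.inr false) ![a], a] : Fin (S.n + 2) → X.A) (vy S) = a := by
      simp [vy]
    rw [hx, hy] at h'
    simp only [Fin.append_left] at h'
    exact h'.1.symm.trans h'.2

/-! ### The test algebra -/

/-- The algebra on `Bool × Fin (k + 1)` with the operations
`d_i (x, y, s, t) = t` if `y` has second coordinate `i` and `s` otherwise, and
`c_i (b, j) = (b, i)`. -/
def W (k : ℕ) : Alg where
  A := Bool × Fin (k + 1)
  ne := ⟨(true, 0)⟩
  ι := Bool × Fin (k + 1)
  ar := fun i => cond i.1 4 1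
  op := fun i => match i with
    | (true, i) => fun v => if (v (1 : Fin 4)).2 = i then v (3 : Fin 4) else v (2 : Fin 4)
    | (false, i) => fun v => ((v (0 : Fin 1)).1, i)

theorem clo_W {k m : ℕ} {f : (Fin m → (W k).A) → (W k).A} (hf : Clo (W k) m f)
    (c : Fin m → Fin (k + 1)) :
    ∃ (j : Fin m) (h : Fin (k + 1)), ∀ b : Fin m → Bool, f (fun l => (b l, c l)) = (b j, h) := by
  induction hf with
  | proj i => exact ⟨i, c i, fun b => rfl⟩
  | app i g _ ih =>
    match i, g, ih with
    | (true, i), g, ih =>
      obtain ⟨j1, h1, e1⟩ := ih (1 : Fin 4)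
      obtain ⟨j2, h2, e2⟩ := ih (2 : Fin 4)
      obtain ⟨j3, h3, e3⟩ := ih (3 : Fin 4)
      by_cases h : h1 = i
      · refine ⟨j3, h3, fun b => ?_⟩
        change (if (g (1 : Fin 4) _).2 = i then g (3 : Fin 4) _ else g (2 : Fin 4) _) = _
        rw [e1 b, if_pos h, e3 b]
      · refine ⟨j2, h2, fun b => ?_⟩
        change (if (g (1 : Fin 4) _).2 = i then g (3 : Fin 4) _ else g (2 : Fin 4) _) = _
        rw [e1 b, if_neg h, e2 b]
    | (false, i), g, ih =>
      obtain ⟨j0, h0, e0⟩ := ih (0 : Fin 1)
      refine ⟨j0, i, fun b => ?_⟩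
      change ((g (0 : Fin 1) _).1, i) = _
      rw [e0 b]

/-- index of the variable selected by a term, if each symbol `f` selects its argument `j f` -/
def Tm.sel {F : Type} {n : ℕ} {ar : F → ℕ} (j : ∀ f, Fin (ar f)) : Tm ar n → Fin n
  | .var i => i
  | .app f t => (t (j f)).sel j

theorem eval_sel {F : Type} {n : ℕ} {ar : F → ℕ} {A : Type} (j : ∀ f, Fin (ar f)) (x : Fin n → A)
    (t : Tm ar n) : t.eval (fun f v => v (j f)) x = x (t.sel j) := by
  induction t with
  | var i => rfl
  | app f t ih => exact ih (j f)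

/-- A tame condition which holds in one of the algebras `W k` holds in all algebras. -/
theorem trivial_of_W {k : ℕ} (hS : S.Tame) (h : Sat (W k) S) (X : Alg) : Sat X S := by
  obtain ⟨I, hI, h⟩ := h
  choose j hh he using fun f => clo_W (hI f) (fun _ => 0)
  have hid : ∀ f, S.IdemSymbol f → hh f = 0 := fun f hf => by
    have := hf (W k) I hI (fun e he x => h e he x trivial) (true, 0)
    rw [he f (fun _ => true)] at this
    exact congrArg Prod.snd this
  have low : ∀ (t : Tm S.ar S.n), t.Low {f | S.IdemSymbol f} → ∀ b : Fin S.n → Bool,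
      t.eval I (fun l => (b l, 0)) = (b (t.sel j), 0) := by
    intro t
    induction t with
    | var i => intro _ b; rfl
    | app f t ih =>
      intro ht b
      simp only [Tm.eval]
      rw [show (fun l => (t l).eval I (fun l => (b l, (0 : Fin (k + 1))))) =
        fun l => (b ((t l).sel j), 0) from funext fun l => ih l (ht.2 l) b]
      rw [he f (fun l => b ((t l).sel j)), hid f ht.1]
      rfl
  have top : ∀ (t : Tm S.ar S.n), t.Top {f | S.IdemSymbol f} → ∀ b : Fin S.n → Bool,
      (t.eval I (fun l => (b l, 0))).1 = b (t.sel j) := by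
    intro t ht b
    cases t with
    | var i => rfl
    | app f t =>
      simp only [Tm.eval]
      rw [show (fun l => (t l).eval I (fun l => (b l, (0 : Fin (k + 1))))) =
        fun l => (b ((t l).sel j), 0) from funext fun l => low _ (ht l) b]
      rw [he f (fun l => b ((t l).sel j))]
      rfl
  refine ⟨fun f v => v (j f), fun f => Clo.proj _, fun e hee x _ => ?_⟩
  rw [eval_sel, eval_sel]
  have h1 := h e hee (fun l => (decide (l = e.1.sel j), 0)) trivial
  have h2 := congrArg Prod.fst h1
  rw [top _ (hS e hee).1 (fun l => decide (l = e.1.sel j)),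
    top _ (hS e hee).2 (fun l => decide (l = e.1.sel j))] at h2
  have h3 : e.2.sel j = e.1.sel j := by simpa using h2.symm
  rw [h3]

theorem exists_card {α : Type} [Fintype α] {m k : ℕ} (hm : 0 < m) (h : k ≤ Fintype.card α) :
    ∃ D : Finset (Fin m → α), D.card = k := by
  classical
  have h2 : k ≤ (Finset.univ : Finset (Fin m → α)).card := by
    rw [Finset.card_univ, Fintype.card_fun, Fintype.card_fin]
    exact h.trans (Nat.le_self_pow hm.ne' _)
  obtain ⟨D, _, hD⟩ := Finset.exists_subset_card_eq h2
  exact ⟨D, hD⟩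

theorem not_lg_hidden (hpos : ∀ f, 0 < S.ar f) (hS : S.Tame) (hX : ∃ X : Alg, ¬ Sat X S) :
    ¬ LGIn (fun X => Finite X.A) (Hidden S) := by
  classical
  rintro ⟨k, hk, h⟩
  obtain ⟨X, hX⟩ := hX
  have : Fintype (W k).A := inferInstanceAs (Fintype (Bool × Fin (k + 1)))
  have hcard : k ≤ Fintype.card (Bool × Fin (k + 1)) := by
    rw [Fintype.card_prod, Fintype.card_bool, Fintype.card_fin]
    omega
  have h1 := h (W k) (inferInstanceAs (Finite (Bool × Fin (k + 1))))
    (exists_card (α := Bool × Fin (k + 1)) (Nat.succ_pos _) hcard) ?_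
  · have h2 : Sat (W k) (Hidden S) := by
      have := h1 Finset.univ
      rwa [Finset.coe_univ] at this
    exact hX (trivial_of_W S hS ((equivalent_hidden S (W k)).2 h2) X)
  · intro D hD
    obtain ⟨i, hi⟩ : ∃ i : Fin (k + 1), ∀ z ∈ D, (z (vx S)).2 ≠ i := by
      by_contra hcon
      push Not at hcon
      have : (Finset.univ : Finset (Fin (k + 1))) ⊆ D.image fun z => (z (vx S)).2 := by
        intro i _
        obtain ⟨z, hz, e⟩ := hcon i
        exact Finset.mem_image.2 ⟨z, hz, e⟩
      have := (Finset.card_le_card this).trans Finset.card_image_le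
      rw [Finset.card_univ, Fintype.card_fin, hD] at this
      omega
    refine ⟨fun f => match f with
      | .inl f => fun v => v ⟨0, hpos f⟩
      | .inr true => fun v => if (v (1 : Fin 4)).2 = i then v (3 : Fin 4) else v (2 : Fin 4)
      | .inr false => fun v => ((v (0 : Fin 1)).1, i), ?_, ?_⟩
    · rintro (f | f | f)
      · exact Clo.proj (X := W k) _
      · exact Clo.app (X := W k) (k := 1) (false, i) (fun j v => v j) fun j => Clo.proj j
      · exact Clo.app (X := W k) (k := 4) (true, i) (fun j v => v j) fun j => Clo.proj j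
    · refine (hidden_iff (S := S) _ _).2 fun e he z hz => ⟨?_, ?_⟩
      · exact if_neg (hi z hz)
      · exact if_pos rfl

/-- **Presentation dependence.** A tame condition (for instance a linear or an idempotent one) is
equivalent to a condition without the local-global property, unless it holds in all algebras. -/
theorem hidden_iff_nontrivial (hpos : ∀ f, 0 < S.ar f) (hS : S.Tame) :
    (∃ T : Cond, Equivalent S T ∧ ¬ LGIn (fun X => Finite X.A) T) ↔ ∃ X : Alg, ¬ Sat X S := by
  constructor
  · rintro ⟨T, hT, hn⟩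
    by_contra hcon
    push Not at hcon
    refine hn ⟨1, le_rfl, fun X _ _ _ D => ?_⟩
    obtain ⟨I, hI, h⟩ := (hT X).1 (hcon X)
    exact ⟨I, hI, fun e he x _ => h e he x trivial⟩
  · intro hX
    exact ⟨Hidden S, equivalent_hidden S, not_lg_hidden S hpos hS hX⟩

end Pool.Agent.KS6_41.LG
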