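import Pool.Agent.KS6_41.LG.Base

/-!
# No condition equivalent to `Σ_Sym(n)`, `n ≥ 3`, has the local-global property
-/

set_option autoImplicit false
set_option linter.unusedSectionVars false

namespace Pool.Agent.KS6_41.LG

/-- The condition `Σ_Sym(n)`: there is an `n`-ary symmetric term. -/
def Sym (n : ℕ) : Cond where
  F := Unit
  fin := inferInstance
  ar := fun _ => n
  n := n
  eqs := Set.range fun σ : Equiv.Perm (Fin n) =>
    ((.app () fun j => .var j : Tm (fun _ : Unit => n) n), .app () fun j => .var (σ j))
  finEqs := Set.finite_range _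

theorem satOn_sym {X : Alg} {n : ℕ} {D : Set (Fin n → X.A)} : SatOn X (Sym n) D ↔
    ∃ f : (Fin n → X.A) → X.A, Clo X n f ∧
      ∀ σ : Equiv.Perm (Fin n), ∀ x ∈ D, f x = f (fun l => x (σ l)) := by
  constructor
  · rintro ⟨I, hI, h⟩
    exact ⟨I (), hI (), fun σ x hx => h _ ⟨σ, rfl⟩ x hx⟩
  · rintro ⟨f, hf, h⟩
    refine ⟨fun _ => f, fun _ => hf, ?_⟩
    rintro _ ⟨σ, rfl⟩ x hx
    exact h σ x hx

theorem Clo.comp {X : Alg} {k m : ℕ} {f : (Fin k → X.A) → X.A} (hf : Clo X k f)
    {g : Fin k → (Fin m → X.A) → X.A} (hg : ∀ i, Clo X m (g i)) :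
    Clo X m fun x => f fun i => g i x := by
  induction hf with
  | proj i => exact hg i
  | app i h _ ih => exact Clo.app i (fun j x => h j fun i => g i x) ih

/-! ### Two variables -/

theorem perm_two (σ : Equiv.Perm (Fin 2)) : σ = 1 ∨ σ = Equiv.swap 0 1 := by
  revert σ; decide

theorem lg_sym_two : LG (Sym 2) := by
  classical
  refine ⟨1, le_rfl, fun X _ _ h D => ?_⟩
  change Finset (Fin 2 → X.A) at D
  have key : ∀ D : Finset (Fin 2 → X.A), ∃ f : (Fin 2 → X.A) → X.A, Clo X 2 f ∧
      ∀ x ∈ D, f x = f ![x 1, x 0] := by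
    intro D
    induction D using Finset.induction_on with
    | empty => exact ⟨_, Clo.proj 0, fun x hx => absurd hx (Finset.notMem_empty x)⟩
    | insert z D _ ih =>
      obtain ⟨f, hf, h1⟩ := ih
      obtain ⟨g, hg, h2⟩ := satOn_sym.1 (h {![f z, f ![z 1, z 0]]} (Finset.card_singleton _))
      have h3 : g ![f z, f ![z 1, z 0]] = g ![f ![z 1, z 0], f z] := by
        have := h2 (Equiv.swap 0 1) _ (Finset.mem_coe.2 (Finset.mem_singleton_self _))
        refine this.trans (congrArg g ?_)
        funext l
        fin_cases l <;> rfl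
      refine ⟨fun x => g ![f x, f ![x 1, x 0]], ?_, fun x hx => ?_⟩
      · have h4 : Clo X 2 fun x => f ![x 1, x 0] := by
          have := Clo.comp hf (g := ![fun x => x 1, fun x => x 0]) (m := 2) (by
            intro i; fin_cases i <;> exact Clo.proj _)
          convert this using 3 with x
          funext l
          fin_cases l <;> rfl
        have := Clo.comp hg (g := ![f, fun x => f ![x 1, x 0]]) (m := 2) (by
          intro i; fin_cases i
          · exact hf
          · exact h4)
        convert this using 3 with x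
        funext l
        fin_cases l <;> rfl
      · have e : (![(![x 1, x 0] : Fin 2 → X.A) 1, (![x 1, x 0] : Fin 2 → X.A) 0] :
            Fin 2 → X.A) = x := by
          funext l
          fin_cases l <;> rfl
        change g ![f x, f ![x 1, x 0]] = g ![f ![x 1, x 0],
          f ![(![x 1, x 0] : Fin 2 → X.A) 1, (![x 1, x 0] : Fin 2 → X.A) 0]]
        rw [e]
        rcases Finset.mem_insert.1 hx with rfl | hx
        · exact h3
        · rw [← h1 x hx]
  obtain ⟨f, hf, h1⟩ := key D
  refine satOn_sym.2 ⟨f, hf, fun σ x hx => ?_⟩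
  rcases perm_two σ with rfl | rfl
  · rfl
  · refine (h1 x hx).trans (congrArg f ?_)
    funext l
    fin_cases l <;> rfl

/-- the algebra on `Bool` without operations -/
def P2 : Alg := ⟨Bool, ⟨true⟩, Empty, Empty.elim, fun i => i.elim⟩

theorem clo_P2 {k : ℕ} {f : (Fin k → P2.A) → P2.A} (hf : Clo P2 k f) : ∃ j, f = fun x => x j := by
  induction hf with
  | proj i => exact ⟨i, rfl⟩
  | app i => exact i.elim

theorem not_sat_sym {n : ℕ} (hn : 2 ≤ n) : ¬ Sat P2 (Sym n) := by
  intro h
  obtain ⟨f, hf, h⟩ := satOn_sym.1 h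
  obtain ⟨j, rfl⟩ := clo_P2 hf
  have : Nontrivial (Fin n) := Fin.nontrivial_iff_two_le.2 hn
  obtain ⟨i, hi⟩ := exists_ne j
  have := h (Equiv.swap j i) (fun l => decide (l = j)) trivial
  simp [hi] at this

theorem tame_sym (n : ℕ) : (Sym n).Tame := by
  rintro _ ⟨σ, rfl⟩
  exact ⟨fun j => trivial, fun j => trivial⟩

/-! ### The algebra for `n ≥ 3` -/

section Core

variable {n p : ℕ} [NeZero n]

/-- matrices -/
abbrev V (n p : ℕ) : Type := Fin n → Fin n → ZMod p

/-- letters or matrices -/
abbrev LV (n p : ℕ) : Type := Fin n ⊕ V n p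

/-- two different letters occur at the positions `q.1` and `q.2` -/
def P (y : Fin n → LV n p) (q : Fin n × Fin n) : Prop :=
  ∃ a b, y q.1 = .inl a ∧ y q.2 = .inl b ∧ a ≠ b

/-- the letter -/
def letter : LV n p → Fin n := Sum.elim id fun _ => 0

/-- the matrix -/
def vec : LV n p → V n p := Sum.elim (fun _ => 0) id

/-- matrix unit -/
def E (a b : Fin n) : V n p := fun a' b' => if a' = a ∧ b' = b then 1 else 0

open Classical in
/-- the operations on one sort -/
noncomputable def core (bad : Prop) (y : Fin n → LV n p) : LV n p :=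
  if ∃ q, P y q then
    (if bad then .inr (E (letter (y (Classical.epsilon (P y)).1))
      (letter (y (Classical.epsilon (P y)).2))) else .inr 0)
  else if ∃ l, (y l).isLeft then y (Classical.epsilon fun l => (y l).isLeft)
  else .inr fun a b => (n : ZMod p)⁻¹ * ∑ l, vec (y l) a b

/-- action of permutations of the letters -/
def act (π : Equiv.Perm (Fin n)) : LV n p → LV n p :=
  Sum.map π fun v a b => v (π.symm a) (π.symm b)

/-- sum of the entries off the diagonal -/
def dl (v : V n p) : ZMod p := ∑ a, ∑ b, if a = b then 0 else v a b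

theorem P_act (π : Equiv.Perm (Fin n)) (y : Fin n → LV n p) :
    P (fun l => act π (y l)) = P y := by
  have key : ∀ (x : LV n p) (a : Fin n), act π x = .inl a ↔ x = .inl (π.symm a) := by
    intro x a
    rcases x with x | x
    · simp only [act, Sum.map_inl, Sum.inl.injEq]
      exact ⟨fun h => by rw [← h]; simp, fun h => by rw [h]; simp⟩
    · simp [act]
  funext q
  apply propext
  constructor
  · rintro ⟨a, b, h1, h2, h⟩
    exact ⟨_, _, (key _ _).1 h1, (key _ _).1 h2, fun e => h (π.symm.injective e)⟩
  · rintro ⟨a, b, h1, h2, h⟩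
    refine ⟨π a, π b, (key _ _).2 (by rw [h1]; simp), (key _ _).2 (by rw [h2]; simp),
      fun e => h (π.injective e)⟩

theorem isLeft_act (π : Equiv.Perm (Fin n)) (x : LV n p) : (act π x).isLeft = x.isLeft := by
  rcases x with x | x <;> rfl

theorem core_act (bad : Prop) (π : Equiv.Perm (Fin n)) (y : Fin n → LV n p) :
    core bad (fun l => act π (y l)) = act π (core bad y) := by
  classical
  unfold core
  rw [P_act]
  simp only [isLeft_act]
  by_cases h1 : ∃ q, P y q
  · simp only [if_pos h1]
    by_cases hb : bad
    · simp only [if_pos hb]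
      obtain ⟨a, b, ha, hb', hab⟩ := Classical.epsilon_spec h1
      rw [ha, hb']
      simp only [act, Sum.map_inl, Sum.map_inr, letter, Sum.elim_inl, id]
      congr 1
      funext a' b'
      simp only [E, Equiv.symm_apply_eq]
    · simp only [if_neg hb]
      rfl
  · simp only [if_neg h1]
    by_cases h2 : ∃ l, (y l).isLeft
    · simp only [if_pos h2]
    · simp only [if_neg h2]
      have h3 : ∀ l, ∃ v, y l = .inr v := fun l => by
        rcases hl : y l with a | v
        · exact absurd ⟨l, by rw [hl]; rfl⟩ h2
        · exact ⟨v, rfl⟩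
      choose v hv using h3
      simp only [hv, act, Sum.map_inr, vec, Sum.elim_inr, id]

theorem core_symm (y : Fin n → LV n p) (σ : Equiv.Perm (Fin n)) :
    core False (fun l => y (σ l)) = core False y := by
  classical
  have e1 : (∃ q, P (fun l => y (σ l)) q) ↔ ∃ q, P y q := by
    constructor
    · rintro ⟨q, a, b, h⟩
      exact ⟨(σ q.1, σ q.2), a, b, h⟩
    · rintro ⟨q, a, b, h⟩
      exact ⟨(σ.symm q.1, σ.symm q.2), a, b, by simpa using h⟩
  have e2 : (∃ l, (y (σ l)).isLeft = true) ↔ ∃ l, (y l).isLeft = true := by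
    constructor
    · rintro ⟨l, h⟩
      exact ⟨_, h⟩
    · rintro ⟨l, h⟩
      exact ⟨σ.symm l, by simpa using h⟩
  unfold core
  by_cases h1 : ∃ q, P y q
  · rw [if_pos h1, if_pos (e1.2 h1)]
    simp
  · rw [if_neg h1, if_neg (fun h => h1 (e1.1 h))]
    by_cases h2 : ∃ l, (y l).isLeft = true
    · rw [if_pos h2, if_pos (e2.2 h2)]
      have s1 := Classical.epsilon_spec h2
      have s2 := Classical.epsilon_spec (e2.2 h2)
      obtain ⟨a, ha⟩ := Sum.isLeft_iff.1 s1
      obtain ⟨b, hb⟩ := Sum.isLeft_iff.1 s2
      by_contra hne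
      refine h1 ⟨(σ (Classical.epsilon fun l => (y (σ l)).isLeft = true),
        Classical.epsilon fun l => (y l).isLeft = true), b, a, hb, ha, fun e => hne ?_⟩
      exact (hb.trans (by rw [e])).trans ha.symm
    · rw [if_neg h2, if_neg (fun h => h2 (e2.1 h))]
      congr 1
      funext a b
      congr 1
      exact Equiv.sum_comp σ fun l => vec (y l) a b

theorem core_idem (bad : Prop) (x : LV n p) [Fact p.Prime] (hn : (n : ZMod p) ≠ 0) :
    core bad (fun _ => x) = x := by
  classical
  unfold core
  rw [if_neg]
  · rcases x with a | v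
    · rw [if_pos ⟨0, rfl⟩]
    · rw [if_neg (by simp)]
      congr 1
      funext a b
      simp only [vec, Sum.elim_inr, id, Finset.sum_const, Finset.card_univ, Fintype.card_fin,
        nsmul_eq_mul]
      rw [← mul_assoc, inv_mul_cancel₀ hn, one_mul]
  · rintro ⟨q, a, b, h1, h2, h⟩
    exact h (Sum.inl_injective (h1.symm.trans h2))

theorem dl_E {a b : Fin n} (h : a ≠ b) : dl (E a b : V n p) = 1 := by
  unfold dl E
  rw [Finset.sum_eq_single a, Finset.sum_eq_single b]
  · simp [h]
  · intro b' _ hb'
    simp [hb']
  · simp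
  · intro a' _ ha'
    refine Finset.sum_eq_zero fun b' _ => ?_
    simp [ha']
  · simp

theorem dl_zero : dl (0 : V n p) = 0 := by simp [dl]

theorem dl_mul (c : ZMod p) (v : V n p) : dl (fun a b => c * v a b) = c * dl v := by
  simp only [dl, Finset.mul_sum, mul_ite, mul_zero]

theorem dl_sum (v : Fin n → V n p) : dl (fun a b => ∑ l, v l a b) = ∑ l, dl (v l) := by
  unfold dl
  rw [Finset.sum_comm]
  refine Eq.trans ?_ (Finset.sum_comm).symm
  rw [Finset.sum_comm]
  refine Finset.sum_congr rfl fun a _ => ?_
  rw [Finset.sum_comm]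
  refine Finset.sum_congr rfl fun b _ => ?_
  split_ifs
  · simp
  · rfl

/-- The invariant of the vectors of values: either the same letter in each sort, or matrices whose
off-diagonal sums add up to `1`. -/
def Inv {N : ℕ} (r : Fin N → LV n p) : Prop :=
  (∃ a, ∀ i, r i = .inl a) ∨ ∃ v : Fin N → V n p, (∀ i, r i = .inr (v i)) ∧ ∑ i, dl (v i) = 1

theorem Inv.unif {N : ℕ} {r : Fin N → LV n p} (h : Inv r) (i i' : Fin N) (a : Fin n) :
    r i = .inl a ↔ r i' = .inl a := by
  rcases h with ⟨b, hb⟩ | ⟨v, hv, _⟩
  · rw [hb, hb]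
  · rw [hv, hv]
    simp

theorem Inv.left {N : ℕ} {r : Fin N → LV n p} (h : Inv r) (i i' : Fin N) :
    (r i).isLeft = (r i').isLeft := by
  rcases h with ⟨b, hb⟩ | ⟨v, hv, _⟩
  · rw [hb, hb]
  · rw [hv, hv]
    simp

theorem core_inv {N : ℕ} (j : Fin N) (r : Fin n → Fin N → LV n p) (h : ∀ l, Inv (r l))
    [Fact p.Prime] (hn : (n : ZMod p) ≠ 0) : Inv fun i => core (i = j) fun l => r l i := by
  classical
  have hP : ∀ i, P (fun l => r l i) = P (fun l => r l j) := by
    intro i
    funext q
    apply propext
    simp only [P]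
    simp only [(h _).unif i j]
  have hL : ∀ i, (fun l => (r l i).isLeft = true) = fun l => (r l j).isLeft = true := by
    intro i
    funext l
    rw [(h l).left i j]
  by_cases h1 : ∃ q, P (fun l => r l j) q
  · obtain ⟨a, b, ha, hb, hab⟩ := Classical.epsilon_spec h1
    right
    refine ⟨fun i => if i = j then E a b else 0, fun i => ?_, ?_⟩
    · have ha' := (h _).unif j i a |>.1 ha
      have hb' := (h _).unif j i b |>.1 hb
      change core (i = j) (fun l => r l i) = Sum.inr (if i = j then E a b else 0)
      unfold core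
      rw [hP i, if_pos h1]
      simp only [ha', hb', letter, Sum.elim_inl, id]
      split_ifs <;> rfl
    · rw [Finset.sum_eq_single j]
      · simp only [if_true]
        exact dl_E hab
      · intro i _ hi
        simp only [if_neg hi]
        exact dl_zero
      · simp
  · by_cases h2 : ∃ l, (r l j).isLeft = true
    · have : (fun i => core (i = j) fun l => r l i) =
          r (Classical.epsilon fun l => (r l j).isLeft = true) := by
        funext i
        have h2' : ∃ l, (r l i).isLeft = true := by
          obtain ⟨l, hl⟩ := h2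
          exact ⟨l, ((h l).left i j).trans hl⟩
        unfold core
        rw [hP i, if_neg h1, if_pos h2']
        simp only [hL i]
      rw [this]
      exact h _
    · have h3 : ∀ l, ∃ v : Fin N → V n p, (∀ i, r l i = .inr (v i)) ∧ ∑ i, dl (v i) = 1 := by
        intro l
        rcases h l with ⟨a, ha⟩ | hv
        · exact absurd ⟨l, by rw [ha]; rfl⟩ h2
        · exact hv
      choose v hv hs using h3
      right
      refine ⟨fun i a b => (n : ZMod p)⁻¹ * ∑ l, v l i a b, fun i => ?_, ?_⟩
      · change core (i = j) (fun l => r l i) = _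
        unfold core
        rw [hP i, if_neg h1, if_neg]
        · simp only [hv, vec, Sum.elim_inr, id]
        · rintro ⟨l, hl⟩
          change (r l i).isLeft = true at hl
          rw [hv] at hl
          simp at hl
      · have : ∀ i, dl (fun a b => (n : ZMod p)⁻¹ * ∑ l, v l i a b) =
            (n : ZMod p)⁻¹ * ∑ l, dl (v l i) := by
          intro i
          rw [dl_mul _ (fun a b => ∑ l, v l i a b), dl_sum fun l => v l i]
        simp only [this]
        rw [← Finset.mul_sum, Finset.sum_comm]
        simp only [hs, Finset.sum_const, Finset.card_univ, Fintype.card_fin, nsmul_eq_mul, mul_one]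
        exact inv_mul_cancel₀ hn

theorem dl_fixed (hp : p ∣ n - 1) (v : V n p)
    (hv : ∀ π : Equiv.Perm (Fin n), ∀ a b, v (π.symm a) (π.symm b) = v a b) : dl v = 0 := by
  classical
  unfold dl
  refine Finset.sum_eq_zero fun a _ => ?_
  by_cases h : ∃ b0, b0 ≠ a
  · obtain ⟨b0, hb0⟩ := h
    have : ∀ b, (if a = b then 0 else v a b) = if a = b then 0 else v a b0 := by
      intro b
      split_ifs with hab
      · rfl
      · have := hv (Equiv.swap b b0) a b
        rw [Equiv.symm_swap, Equiv.swap_apply_left,
          Equiv.swap_apply_of_ne_of_ne hab hb0.symm] at this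
        exact this.symm
    simp only [this]
    rw [Finset.sum_ite, Finset.sum_const_zero, zero_add, Finset.sum_const, Finset.filter_not,
      Finset.filter_eq, if_pos (Finset.mem_univ _), Finset.card_sdiff]
    simp only [Finset.inter_univ, Finset.card_univ, Fintype.card_fin, Finset.card_singleton,
      nsmul_eq_mul]
    rw [(ZMod.natCast_eq_zero_iff _ _).2 hp, zero_mul]
  · push Not at h
    refine Finset.sum_eq_zero fun b _ => ?_
    rw [if_pos (h b).symm]

theorem not_fixed {N : ℕ} (hN : 0 < N) (hn : 2 ≤ n) [Fact p.Prime] (hp : p ∣ n - 1)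
    {r : Fin N → LV n p} (h : Inv r) (hf : ∀ π i, act π (r i) = r i) : False := by
  rcases h with ⟨a, ha⟩ | ⟨v, hv, hs⟩
  · have : Nontrivial (Fin n) := Fin.nontrivial_iff_two_le.2 hn
    obtain ⟨b, hb⟩ := exists_ne a
    have := hf (Equiv.swap a b) ⟨0, hN⟩
    rw [ha] at this
    simp only [act, Sum.map_inl, Equiv.swap_apply_left, Sum.inl.injEq] at this
    exact hb this
  · have : ∀ i, dl (v i) = 0 := by
      intro i
      refine dl_fixed hp (v i) fun π a b => ?_
      have := hf π i
      rw [hv] at this
      exact congrFun (congrFun (Sum.inr_injective this) a) b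
    simp [this] at hs

/-! ### The algebra -/

/-- the letter or matrix of an element -/
def val {N : ℕ} : Option (Fin N × LV n p) → LV n p
  | none => .inr 0
  | some (_, y) => y

/-- all entries lie in the same sort -/
def Same {N : ℕ} (x : Fin n → Option (Fin N × LV n p)) : Prop :=
  ∃ i, ∀ l, ∃ y, x l = some (i, y)

open Classical in
/-- the basic operations: `core` on each sort, bad only on the sort `j`; the other tuples are sent
to the extra element `none` -/
noncomputable def opn {N : ℕ} (j : Fin N) (x : Fin n → Option (Fin N × LV n p)) :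
    Option (Fin N × LV n p) :=
  if h : Same x then some (h.choose, core (h.choose = j) fun l => val (x l)) else none

theorem opn_same {N : ℕ} (j i : Fin N) (y : Fin n → LV n p) :
    opn j (fun l => some (i, y l)) = some (i, core (i = j) y) := by
  classical
  have h : Same (fun l => some (i, y l)) := ⟨i, fun l => ⟨y l, rfl⟩⟩
  have e : h.choose = i := by
    obtain ⟨y', hy'⟩ := h.choose_spec 0
    exact (congrArg Prod.fst (Option.some_injective _ hy')).symm
  unfold opn
  rw [dif_pos h, e]
  rfl

theorem opn_not_same {N : ℕ} (j : Fin N) {x : Fin n → Option (Fin N × LV n p)} (h : ¬ Same x) :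
    opn j x = none := by
  unfold opn
  rw [dif_neg h]

theorem same_eq {N : ℕ} {x : Fin n → Option (Fin N × LV n p)} (h : Same x) :
    ∃ (i : Fin N) (y : Fin n → LV n p), x = fun l => some (i, y l) := by
  obtain ⟨i, hi⟩ := h
  choose y hy using hi
  exact ⟨i, y, funext hy⟩

/-- action of the permutations of the letters on the algebra -/
def actA {N : ℕ} (π : Equiv.Perm (Fin n)) : Option (Fin N × LV n p) → Option (Fin N × LV n p)
  | none => none
  | some (i, y) => some (i, act π y)

theorem opn_act {N : ℕ} (j : Fin N) (π : Equiv.Perm (Fin n))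
    (x : Fin n → Option (Fin N × LV n p)) :
    opn j (fun l => actA π (x l)) = actA π (opn j x) := by
  by_cases h : Same x
  · obtain ⟨i, y, rfl⟩ := same_eq h
    change opn j (fun l => some (i, act π (y l))) = _
    rw [opn_same, opn_same, core_act]
    rfl
  · have h' : ¬ Same (fun l => actA π (x l)) := by
      rintro ⟨i, hi⟩
      refine h ⟨i, fun l => ?_⟩
      obtain ⟨y, hy⟩ := hi l
      change actA π (x l) = some (i, y) at hy
      rcases hx : x l with _ | ⟨i', y'⟩
      · rw [hx] at hy
        exact absurd hy (by simp [actA])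
      · rw [hx] at hy
        have : i' = i := congrArg Prod.fst (Option.some_injective _ hy)
        exact ⟨y', by rw [this]⟩
    rw [opn_not_same j h, opn_not_same j h']
    rfl

theorem opn_idem {N : ℕ} (j : Fin N) (a : Option (Fin N × LV n p)) [Fact p.Prime]
    (hn : (n : ZMod p) ≠ 0) : opn j (fun _ => a) = a := by
  rcases a with _ | ⟨i, y⟩
  · refine opn_not_same j ?_
    rintro ⟨i, hi⟩
    obtain ⟨y, hy⟩ := hi 0
    simp at hy
  · refine (opn_same j i fun _ => y).trans ?_
    rw [core_idem _ _ hn]

/-- the elements outside the sort `j` -/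
def Out {N : ℕ} (j : Fin N) (a : Option (Fin N × LV n p)) : Prop := ∀ y, a ≠ some (j, y)

theorem opn_out {N : ℕ} (j : Fin N) (x : Fin n → Option (Fin N × LV n p))
    (hx : ∀ l, Out j (x l)) : Out j (opn j x) := by
  by_cases h : Same x
  · obtain ⟨i, y, rfl⟩ := same_eq h
    rw [opn_same]
    intro y' e
    have : i = j := congrArg Prod.fst (Option.some_injective _ e)
    exact hx (0 : Fin n) (y 0) (by rw [this])
  · rw [opn_not_same j h]
    intro y
    simp

theorem opn_symm {N : ℕ} (j : Fin N) (x : Fin n → Option (Fin N × LV n p))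
    (hx : ∀ l, Out j (x l)) (σ : Equiv.Perm (Fin n)) : opn j x = opn j (fun l => x (σ l)) := by
  by_cases h : Same x
  · obtain ⟨i, y, rfl⟩ := same_eq h
    have hij : (i = j) = False := by
      apply propext
      exact ⟨fun e => hx (0 : Fin n) (y 0) (by rw [e]), False.elim⟩
    rw [opn_same, opn_same j i fun l => y (σ l), hij, core_symm]
  · have h' : ¬ Same (fun l => x (σ l)) := by
      rintro ⟨i, hi⟩
      exact h ⟨i, fun l => by simpa using hi (σ.symm l)⟩
    rw [opn_not_same j h, opn_not_same j h']

variable (n p) in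
/-- The algebra: `N` sorts of letters and matrices, and an extra element. -/
noncomputable def K (N : ℕ) : Alg where
  A := Option (Fin N × LV n p)
  ne := ⟨none⟩
  ι := Fin N
  ar := fun _ => n
  op := fun j => opn j

variable (n p) in
/-- The subalgebra of the elements outside the sort `j`, with one operation. -/
noncomputable def KOut (N : ℕ) (j : Fin N) : Alg where
  A := {a : Option (Fin N × LV n p) // Out j a}
  ne := ⟨⟨none, fun y => by simp⟩⟩
  ι := Unit
  ar := fun _ => n
  op := fun _ x => ⟨opn j fun l => (x l).1, opn_out j _ fun l => (x l).2⟩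

theorem clo_out {N m : ℕ} {j : Fin N} {f : (Fin m → (KOut n p N j).A) → (KOut n p N j).A}
    (hf : Clo (KOut n p N j) m f) :
    ∃ g : (Fin m → (K n p N).A) → (K n p N).A, Clo (K n p N) m g ∧
      ∀ x : Fin m → (KOut n p N j).A, g (fun l => (x l).1) = (f x).1 := by
  induction hf with
  | proj i => exact ⟨_, Clo.proj i, fun x => rfl⟩
  | app i g _ ih =>
    choose g' hg' h using ih
    refine ⟨_, Clo.app (X := K n p N) j g' hg', fun x => ?_⟩
    exact congrArg (opn (n := n) (p := p) j) (funext fun l => h l x)

theorem sat_out {N : ℕ} (j : Fin N) : Sat (KOut n p N j) (Sym n) := by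
  refine satOn_sym.2 ⟨_, Clo.app (X := KOut n p N j) () (fun l x => x l) fun l => Clo.proj l, ?_⟩
  intro σ x _
  apply Subtype.ext
  exact opn_symm j (fun l => (x l).1) (fun l => (x l).2) σ

/-- A condition which holds in `KOut n p N j` holds in `K n p N` on the tuples that avoid the
sort `j`. -/
theorem satOn_of_out {N : ℕ} {j : Fin N} {T : Cond} (hT : Sat (KOut n p N j) T)
    (D : Set (Fin T.n → (K n p N).A)) (hD : ∀ x ∈ D, ∀ l, Out j (x l)) :
    SatOn (K n p N) T D := by
  obtain ⟨I, hI, h⟩ := hT
  choose g hg e using fun f => clo_out (hI f)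
  refine ⟨g, hg, fun q hq x hx => ?_⟩
  have key : ∀ (t : Tm T.ar T.n) (z : Fin T.n → (KOut n p N j).A),
      t.eval g (fun l => (z l).1) = (t.eval I z).1 := by
    intro t z
    induction t with
    | var i => rfl
    | app f t ih =>
      simp only [Tm.eval]
      rw [← e f]
      congr 1
      funext l
      exact ih l
  have := congrArg Subtype.val (h q hq (fun l => ⟨x l, hD x hx l⟩) trivial)
  rw [← key, ← key] at this
  exact this

theorem not_sat_K {N : ℕ} (hN : 0 < N) (hn : 2 ≤ n) [Fact p.Prime] (hp : p ∣ n - 1)
    (hn0 : (n : ZMod p) ≠ 0) : ¬ Sat (K n p N) (Sym n) := by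
  intro h
  obtain ⟨f, hf, hs⟩ := satOn_sym.1 h
  have h1 : ∃ r : Fin N → LV n p, Inv r ∧ ∀ i, f (fun l => some (i, .inl l)) = some (i, r i) := by
    clear hs
    induction hf with
    | proj l => exact ⟨fun _ => .inl l, Or.inl ⟨l, fun _ => rfl⟩, fun i => rfl⟩
    | app j g _ ih =>
      choose r hr e using ih
      refine ⟨fun i => core (i = j) fun l => r l i, core_inv (n := n) (N := N) j r hr hn0,
        fun i => ?_⟩
      exact (congrArg (opn (n := n) (p := p) (N := N) j) (funext fun l => e l i)).trans
        (opn_same (n := n) (p := p) (N := N) j i _)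
  have h2 : ∀ (π : Equiv.Perm (Fin n)) (x : Fin n → (K n p N).A),
      f (fun l => actA π (x l)) = actA π (f x) := by
    clear hs h1
    intro π x
    induction hf with
    | proj l => rfl
    | app j g _ ih =>
      exact (congrArg (opn (n := n) (p := p) (N := N) j) (funext fun l => ih l)).trans
        (opn_act (n := n) (p := p) (N := N) j π _)
  obtain ⟨r, hr, e⟩ := h1
  refine not_fixed hN hn hp hr fun π i => ?_
  have h3 := hs π (fun l => some (i, .inl l)) trivial
  have h4 := h2 π (fun l => some (i, .inl l))
  have h5 : f (fun l => some (i, .inl (π l))) = actA π (some (i, r i)) := by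
    rw [← e i, ← h4]
    rfl
  rw [e i] at h3
  have h6 : (some (i, r i) : Option (Fin N × LV n p)) = some (i, act π (r i)) := h3.trans h5
  exact (congrArg Prod.snd (Option.some_injective _ h6)).symm

end Core

/-- The basic operations of the algebra are idempotent. -/
def Alg.Idem (X : Alg) : Prop := ∀ i a, X.op i (fun _ => a) = a

/-- **Symmetric terms.** For `n ≥ 3` no strong Maltsev condition which is equivalent to
`Σ_Sym(n)` over the finite idempotent algebras has the local-global property for finite idempotent
algebras. -/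
theorem not_lg_of_equivalent_sym {n : ℕ} (hn : 3 ≤ n) (T : Cond)
    (hT : ∀ X : Alg, Finite X.A → X.Idem → (Sat X (Sym n) ↔ Sat X T)) :
    ¬ LGIn (fun X => Finite X.A ∧ X.Idem) T := by
  classical
  rintro ⟨k, hk, h⟩
  obtain ⟨p, hp, hpn⟩ := Nat.exists_prime_and_dvd (show n - 1 ≠ 1 by omega)
  have : Fact p.Prime := ⟨hp⟩
  have : NeZero n := ⟨by omega⟩
  have : NeZero p := ⟨hp.ne_zero⟩
  have hn0 : (n : ZMod p) ≠ 0 := by
    intro h0
    have h1 := (ZMod.natCast_eq_zero_iff _ _).1 h0
    have h2 : p ∣ 1 := by
      have := (Nat.dvd_sub h1 hpn)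
      rwa [show n - (n - 1) = 1 by omega] at this
    exact hp.one_lt.ne' (Nat.dvd_one.1 h2)
  set N := k * T.n + k + 1 with hN
  have hfin : Finite (K n p N).A := inferInstanceAs (Finite (Option (Fin N × LV n p)))
  have hidem : (K n p N).Idem := fun j a => opn_idem j a hn0
  have hout : ∀ j, Sat (KOut n p N j) T := by
    intro j
    refine (hT (KOut n p N j) ?_ ?_).1 (sat_out j)
    · exact inferInstanceAs (Finite {a : Option (Fin N × LV n p) // Out j a})
    · intro i a
      exact Subtype.ext (opn_idem j a.1 hn0)
  have hlocal : ∀ D : Finset (Fin T.n → (K n p N).A), D.card = k → SatOn (K n p N) T D := by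
    intro D hD
    obtain ⟨j, hj⟩ : ∃ j : Fin N, ∀ x ∈ D, ∀ l, Out j (x l) := by
      by_contra hcon
      push Not at hcon
      simp only [Out] at hcon
      push Not at hcon
      choose x hx l y e using hcon
      have : (Finset.univ : Finset (Fin N)).card ≤ (D ×ˢ (Finset.univ : Finset (Fin T.n))).card := by
        refine Finset.card_le_card_of_injOn (fun j => (x j, l j)) ?_ ?_
        · intro j _
          simp [hx j]
        · intro j _ j' _ hjj
          have h1 : x j = x j' := congrArg Prod.fst hjj
          have h2 : l j = l j' := congrArg Prod.snd hjj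
          have h3 := e j
          rw [h1, h2, e j'] at h3
          exact (congrArg Prod.fst (Option.some_injective _ h3)).symm
      rw [Finset.card_product, Finset.card_univ, Finset.card_univ, Fintype.card_fin,
        Fintype.card_fin, hD] at this
      omega
    exact satOn_of_out (hout j) _ fun x hx l => hj x hx l
  have hsat : Sat (K n p N) T := by
    rcases Nat.eq_zero_or_pos T.n with h0 | h0
    · refine satOn_of_out (hout ⟨0, by omega⟩) _ fun x _ l => ?_
      exact (Fin.cast h0 l).elim0
    · have : Fintype (Option (Fin N × LV n p)) := Fintype.ofFinite _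
      have hcard : k ≤ Fintype.card (Option (Fin N × LV n p)) := by
        have h1 : Fintype.card (Fin N) ≤ Fintype.card (Option (Fin N × LV n p)) := by
          refine Fintype.card_le_of_injective
            (fun j => (some (j, .inr 0) : Option (Fin N × LV n p))) ?_
          intro j j' hjj
          exact congrArg Prod.fst (Option.some_injective _ hjj)
        rw [Fintype.card_fin] at h1
        omega
      have h1 := h (K n p N) ⟨hfin, hidem⟩
        (exists_card (α := Option (Fin N × LV n p)) h0 hcard) hlocal
      have : Fintype (Fin T.n → (K n p N).A) := Fintype.ofFinite _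
      have h2 := h1 Finset.univ
      rwa [Finset.coe_univ] at h2
  exact not_sat_K (by omega) (by omega) hpn hn0 ((hT (K n p N) hfin hidem).2 hsat)

end Pool.Agent.KS6_41.LG
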